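import Pool.Agent.Work.MP_2b187c_an.Peano2

set_option autoImplicit false

open Pool.Agent.Work.MP_2b187c_an

namespace Pool.Agent.Results.MP_2b187c_an.NoC4Norm

/-- A separable real Banach space with a separating four-homogeneous polynomial and a smooth bump
function, on which no equivalent norm is four times differentiable away from the origin. -/
theorem result :
    ∃ (X : Type) (_ : NormedAddCommGroup X) (_ : NormedSpace ℝ X),
      CompleteSpace X ∧ TopologicalSpace.SeparableSpace X ∧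
      (∃ A : ContinuousMultilinearMap ℝ (fun _ : Fin 4 => X) ℝ,
        (∀ (σ : Equiv.Perm (Fin 4)) (v : Fin 4 → X), A (v ∘ σ) = A v) ∧
        ∃ c : ℝ, 0 < c ∧ ∀ x : X, ‖x‖ = 1 → c ≤ A (fun _ => x)) ∧
      (∃ φ : X → ℝ, (∀ m : ℕ, ContDiff ℝ m φ) ∧ φ 0 ≠ 0 ∧
        Bornology.IsBounded (Function.support φ)) ∧
      ∀ N : X → ℝ, (∀ x y : X, N (x + y) ≤ N x + N y) →
        (∀ (r : ℝ) (x : X), N (r • x) = |r| * N x) →
        (∀ U : Set X, IsOpen U ↔
          ∀ x ∈ U, ∃ r : ℝ, 0 < r ∧ ∀ y : X, N (y - x) < r → y ∈ U) →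
        ¬ ContDiffOn ℝ 4 N ({0}ᶜ : Set X) ∧
        ¬ (ContDiffOn ℝ 3 N ({0}ᶜ : Set X) ∧
          ∀ x : X, x ≠ 0 → DifferentiableAt ℝ (iteratedFDeriv ℝ 3 N) x) ∧
        ∃ x : X, x ≠ 0 ∧ ∀ p : FormalMultilinearSeries ℝ X ℝ,
          ¬ Asymptotics.IsLittleO (nhds 0)
            (fun y : X => N (x + y) - ∑ k ∈ Finset.range 5, p k (fun _ => y))
            (fun y : X => ‖y‖ ^ 4) := by
  obtain ⟨P, hP⟩ := exists_separating
  obtain ⟨A, hA, hAP⟩ := exists_symm P
  refine ⟨Space, inferInstance, inferInstance, inferInstance, inferInstance,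
    ⟨A, hA, 1 / 324, by norm_num, fun x hx => ?_⟩, exists_bump P (by norm_num) hP,
    fun N hadd hsm htop => ?_⟩
  · have := hP x
    rwa [hx, one_pow, mul_one, ← hAP] at this
  obtain ⟨a, b, ha, hb, hN⟩ := bounds_of_topology hadd hsm htop
  have key := no_peano_norm hadd hsm ha hb hN
  have h3 : ¬ (ContDiffOn ℝ 3 N ({0}ᶜ : Set Space) ∧
      ∀ x : Space, x ≠ 0 → DifferentiableAt ℝ (iteratedFDeriv ℝ 3 N) x) := by
    rintro ⟨h1, h2⟩
    refine key fun x hx => evenPeano_of_expansion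
      (fun k => ((k.factorial : ℝ))⁻¹ • iteratedFDeriv ℝ k N x)
      (expansion_of_differentiable ?_ (h2 x hx))
    filter_upwards [isOpen_compl_singleton.mem_nhds hx] with z hz
    exact h1.contDiffAt (isOpen_compl_singleton.mem_nhds hz)
  refine ⟨fun h => h3 ⟨h.of_le (by norm_num), fun x hx => ?_⟩, h3, ?_⟩
  · exact (h.contDiffAt (isOpen_compl_singleton.mem_nhds hx)).differentiableAt_iteratedFDeriv
      (by norm_num)
  · by_contra hcon
    push Not at hcon
    refine key fun x hx => ?_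
    obtain ⟨p, hp⟩ := hcon x hx
    exact evenPeano_of_expansion p hp

end Pool.Agent.Results.MP_2b187c_an.NoC4Norm
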